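import Mathlib

/-!
# Constant weight codes
-/

set_option autoImplicit false

open Finset

namespace Pool.Agent.R475.SB

/-! ### The greedy bound -/

theorem ball_card (k q h : ℕ) (hq : 0 < q) (y : Fin k → Fin q) :
    #{x : Fin k → Fin q | hammingDist x y ≤ h} ≤ 2 ^ k * q ^ h := by
  classical
  have hsub : ({x : Fin k → Fin q | hammingDist x y ≤ h} : Finset (Fin k → Fin q)) ⊆
      (Finset.univ.filter fun D : Finset (Fin k) => #D ≤ h).biUnion
        fun D => Fintype.piFinset fun i => if i ∈ D then Finset.univ else {y i} := by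
    intro x hx
    simp only [Finset.mem_filter, Finset.mem_univ, true_and] at hx
    simp only [Finset.mem_biUnion, Finset.mem_filter, Finset.mem_univ, true_and,
      Fintype.mem_piFinset]
    refine ⟨Finset.univ.filter fun i => x i ≠ y i, hx, fun i => ?_⟩
    split_ifs with hi
    · exact Finset.mem_univ _
    · simpa using hi
  refine (Finset.card_le_card hsub).trans (Finset.card_biUnion_le.trans ?_)
  calc ∑ D ∈ Finset.univ.filter (fun D : Finset (Fin k) => #D ≤ h),
        #(Fintype.piFinset fun i => if i ∈ D then (Finset.univ : Finset (Fin q)) else {y i})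
      ≤ ∑ D ∈ Finset.univ.filter (fun D : Finset (Fin k) => #D ≤ h), q ^ h := by
        refine Finset.sum_le_sum fun D hD => ?_
        rw [Fintype.card_piFinset]
        have : ∀ i, #(if i ∈ D then (Finset.univ : Finset (Fin q)) else {y i}) =
            if i ∈ D then q else 1 := by
          intro i; split_ifs <;> simp
        simp only [this]
        rw [Finset.prod_ite_mem, Finset.univ_inter, Finset.prod_const]
        exact Nat.pow_le_pow_right hq (by simpa using hD)
    _ = #(Finset.univ.filter fun D : Finset (Fin k) => #D ≤ h) * q ^ h := by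
        rw [Finset.sum_const, smul_eq_mul]
    _ ≤ 2 ^ k * q ^ h := by
        refine Nat.mul_le_mul_right _ ((Finset.card_le_univ _).trans ?_)
        simp

/-- Greedy codes. -/
theorem greedy (k q h : ℕ) (hq : 0 < q) :
    ∃ S : Finset (Fin k → Fin q), (∀ x ∈ S, ∀ y ∈ S, x ≠ y → h < hammingDist x y) ∧
      q ^ k ≤ #S * (2 ^ k * q ^ h) := by
  classical
  let F : Finset (Finset (Fin k → Fin q)) :=
    Finset.univ.filter fun S => ∀ x ∈ S, ∀ y ∈ S, x ≠ y → h < hammingDist x y
  have hF : F.Nonempty := ⟨∅, by simp [F]⟩
  obtain ⟨S, hS, hmax⟩ := Finset.exists_max_image F Finset.card hF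
  have hSp : ∀ x ∈ S, ∀ y ∈ S, x ≠ y → h < hammingDist x y := by simpa [F] using hS
  refine ⟨S, hSp, ?_⟩
  have hcov : (Finset.univ : Finset (Fin k → Fin q)) ⊆
      S.biUnion fun y => {x : Fin k → Fin q | hammingDist x y ≤ h} := by
    intro x _
    by_contra hx
    simp only [Finset.mem_biUnion, Finset.mem_filter, Finset.mem_univ, true_and, not_exists,
      not_and, not_le] at hx
    have hxS : x ∉ S := by
      intro hxS
      have := hx x hxS
      simp at this
    have hin : insert x S ∈ F := by
      simp only [F, Finset.mem_filter, Finset.mem_univ, true_and, Finset.mem_insert]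
      rintro a (rfl | ha) b (rfl | hb) hab
      · exact absurd rfl hab
      · exact hx b hb
      · rw [hammingDist_comm]
        exact hx a ha
      · exact hSp a ha b hb hab
    have := hmax _ hin
    rw [Finset.card_insert_of_notMem hxS] at this
    omega
  have h1 := Finset.card_le_card hcov
  rw [Finset.card_univ, Fintype.card_pi_const, Fintype.card_fin] at h1
  refine h1.trans (Finset.card_biUnion_le.trans ?_)
  refine (Finset.sum_le_card_nsmul _ _ _ fun y _ => ball_card k q h hq y).trans ?_
  rw [smul_eq_mul]

/-- An outer code with `2 ^ (M k)` words. -/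
theorem outer (M k : ℕ) (hM : 1 ≤ M) :
    ∃ S : Finset (Fin (M * k) → Fin (4 ^ M)),
      (∀ x ∈ S, ∀ y ∈ S, x ≠ y → (M - 1) * k < hammingDist x y) ∧ 2 ^ (M * k) ≤ #S := by
  obtain ⟨S, hS, hc⟩ := greedy (M * k) (4 ^ M) ((M - 1) * k) (by positivity)
  refine ⟨S, hS, ?_⟩
  obtain ⟨M', rfl⟩ : ∃ M', M = M' + 1 := ⟨M - 1, by omega⟩
  simp only [Nat.add_sub_cancel] at hc
  have e1 : (4 ^ (M' + 1)) ^ ((M' + 1) * k) =
      2 ^ ((M' + 1) * k) * (2 ^ ((M' + 1) * k) * (4 ^ (M' + 1)) ^ (M' * k)) := by
    rw [show (4 : ℕ) = 2 ^ 2 by norm_num]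
    simp only [← pow_mul, ← pow_add]
    congr 1
    ring
  rw [e1] at hc
  exact Nat.le_of_mul_le_mul_right hc (by positivity)

/-! ### The inner code -/

section inner

variable (a b q : ℕ)

theorem inner_weight (ha : a ≤ b) (j : Fin q) :
    #{f : Fin q → Fin b | (f j : ℕ) < a} = a * b ^ (q - 1) := by
  classical
  have h1 : ({f : Fin q → Fin b | (f j : ℕ) < a} : Finset (Fin q → Fin b)) =
      Fintype.piFinset fun i => if i = j then (Finset.univ.filter fun t : Fin b => (t : ℕ) < a) else Finset.univ := by
    ext f
    simp only [Finset.mem_filter, Finset.mem_univ, true_and, Fintype.mem_piFinset]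
    constructor
    · intro h i
      split_ifs with hi
      · subst hi; simpa using h
      · exact Finset.mem_univ _
    · intro h
      have := h j
      simpa using this
  have h2 : #{t : Fin b | (t : ℕ) < a} = a := by
    rw [Fin.card_filter_val_lt]
    exact min_eq_right ha
  rw [h1, Fintype.card_piFinset]
  have h3 : ∀ i, #(if i = j then (Finset.univ.filter fun t : Fin b => (t : ℕ) < a) else Finset.univ) =
      if i = j then a else b := by
    intro i; split_ifs
    · exact h2
    · simp
  simp only [h3]
  rw [← Finset.mul_prod_erase _ _ (Finset.mem_univ j), if_pos rfl]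
  congr 1
  rw [Finset.prod_congr rfl (g := fun _ => b) fun i hi => if_neg (Finset.ne_of_mem_erase hi),
    Finset.prod_const, Finset.card_erase_of_mem (Finset.mem_univ _), Finset.card_univ,
    Fintype.card_fin]

theorem inner_half (ha : a ≤ b) {j j' : Fin q} (hj : j ≠ j') :
    #{f : Fin q → Fin b | (f j : ℕ) < a ∧ ¬ (f j' : ℕ) < a} = a * (b - a) * b ^ (q - 2) := by
  classical
  have h1 : ({f : Fin q → Fin b | (f j : ℕ) < a ∧ ¬ (f j' : ℕ) < a} : Finset (Fin q → Fin b)) =
      Fintype.piFinset fun i => if i = j then (Finset.univ.filter fun t : Fin b => (t : ℕ) < a) else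
        if i = j' then (Finset.univ.filter fun t : Fin b => ¬ (t : ℕ) < a) else Finset.univ := by
    ext f
    simp only [Finset.mem_filter, Finset.mem_univ, true_and, Fintype.mem_piFinset]
    constructor
    · rintro ⟨h, h'⟩ i
      split_ifs with hi hi'
      · subst hi; simpa using h
      · subst hi'; simpa using h'
      · exact Finset.mem_univ _
    · intro h
      have e1 := h j
      have e2 := h j'
      rw [if_neg hj.symm] at e2
      simp only [if_true, Finset.mem_filter, Finset.mem_univ, true_and] at e1 e2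
      exact ⟨e1, e2⟩
  have h2 : #{t : Fin b | (t : ℕ) < a} = a := by
    rw [Fin.card_filter_val_lt]
    exact min_eq_right ha
  have h2' : #{t : Fin b | ¬ (t : ℕ) < a} = b - a := by
    have := Finset.card_filter_add_card_filter_not (s := (Finset.univ : Finset (Fin b)))
      (fun t : Fin b => (t : ℕ) < a)
    rw [Finset.card_univ, Fintype.card_fin, h2] at this
    omega
  rw [h1, Fintype.card_piFinset]
  have h3 : ∀ i, #(if i = j then (Finset.univ.filter fun t : Fin b => (t : ℕ) < a) else
        if i = j' then (Finset.univ.filter fun t : Fin b => ¬ (t : ℕ) < a) else Finset.univ) =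
      if i = j then a else if i = j' then b - a else b := by
    intro i; split_ifs
    · exact h2
    · exact h2'
    · simp
  simp only [h3]
  rw [← Finset.mul_prod_erase _ _ (Finset.mem_univ j), if_pos rfl, mul_assoc]
  congr 1
  rw [← Finset.mul_prod_erase _ _ (Finset.mem_erase.2 ⟨hj.symm, Finset.mem_univ j'⟩),
    if_neg hj.symm, if_pos rfl]
  congr 1
  rw [Finset.prod_congr rfl (g := fun _ => b) fun i hi => by
      rw [Finset.mem_erase, Finset.mem_erase] at hi
      rw [if_neg hi.2.1, if_neg hi.1],
    Finset.prod_const, Finset.card_erase_of_mem (Finset.mem_erase.2 ⟨hj.symm, Finset.mem_univ j'⟩),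
    Finset.card_erase_of_mem (Finset.mem_univ _), Finset.card_univ,
    Fintype.card_fin]
  congr 1

theorem inner_dist (ha : a ≤ b) {j j' : Fin q} (hj : j ≠ j') :
    #{f : Fin q → Fin b | decide ((f j : ℕ) < a) ≠ decide ((f j' : ℕ) < a)} =
      2 * (a * (b - a) * b ^ (q - 2)) := by
  classical
  have h1 : ({f : Fin q → Fin b | decide ((f j : ℕ) < a) ≠ decide ((f j' : ℕ) < a)} :
      Finset (Fin q → Fin b)) =
      ({f : Fin q → Fin b | (f j : ℕ) < a ∧ ¬ (f j' : ℕ) < a} : Finset (Fin q → Fin b)) ∪
      ({f : Fin q → Fin b | (f j' : ℕ) < a ∧ ¬ (f j : ℕ) < a} : Finset (Fin q → Fin b)) := by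
    ext f
    simp only [Finset.mem_filter, Finset.mem_univ, true_and, Finset.mem_union, ne_eq,
      decide_eq_decide]
    tauto
  rw [h1, Finset.card_union_of_disjoint, inner_half a b q ha hj, inner_half a b q ha hj.symm]
  · ring
  · rw [Finset.disjoint_left]
    intro f h h'
    simp only [Finset.mem_filter, Finset.mem_univ, true_and] at h h'
    exact h'.2 h.1

end inner

end Pool.Agent.R475.SB
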