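import Mathlib
import Pool.Agent.R475.SB.Code

/-!
# Constant weight codes of exponential size
-/

set_option autoImplicit false

open Finset

namespace Pool.Agent.R475.SB

theorem hammingDist_eq_sum {ι : Type*} [Fintype ι] (x y : ι → Bool) :
    hammingDist x y = ∑ i, if x i ≠ y i then 1 else 0 := by
  unfold hammingDist
  rw [Finset.card_filter]

section word

variable {k q b r s : ℕ}

/-- The binary word of an outer word. -/
def word (a : ℕ) (r s : ℕ) (c : Fin k → Fin q) :
    (Fin k × (Fin q → Fin b)) ⊕ (Fin r ⊕ Fin s) → Bool :=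
  Sum.elim (fun p => decide ((p.2 (c p.1) : ℕ) < a)) (Sum.elim (fun _ => true) fun _ => false)

theorem word_weight {a : ℕ} (ha : a ≤ b) (c : Fin k → Fin q) :
    hammingDist (fun _ => false) (word (b := b) a r s c) = k * (a * b ^ (q - 1)) + r := by
  rw [hammingDist_eq_sum, Fintype.sum_sum_type, Fintype.sum_sum_type, Fintype.sum_prod_type]
  have h1 : ∀ β : Fin k, ∑ f : Fin q → Fin b,
      (if (false : Bool) ≠ word (b := b) a r s c (Sum.inl (β, f)) then 1 else 0) =
        a * b ^ (q - 1) := by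
    intro β
    rw [← inner_weight a b q ha (c β), Finset.card_filter]
    refine Finset.sum_congr rfl fun f _ => ?_
    simp [word]
  simp only [h1]
  simp [word]

theorem word_dist {a : ℕ} (ha : a ≤ b) (c c' : Fin k → Fin q) :
    hammingDist (word (b := b) a r s c) (word (b := b) a r s c') =
      hammingDist c c' * (2 * (a * (b - a) * b ^ (q - 2))) := by
  rw [hammingDist_eq_sum, Fintype.sum_sum_type, Fintype.sum_sum_type, Fintype.sum_prod_type]
  have h1 : ∀ β : Fin k, ∑ f : Fin q → Fin b,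
      (if word (b := b) a r s c (Sum.inl (β, f)) ≠ word (b := b) a r s c' (Sum.inl (β, f))
        then 1 else 0) =
        if c β ≠ c' β then 2 * (a * (b - a) * b ^ (q - 2)) else 0 := by
    intro β
    split_ifs with hβ
    · rw [← inner_dist a b q ha hβ, Finset.card_filter]
      refine Finset.sum_congr rfl fun f _ => ?_
      simp [word]
    · rw [not_not] at hβ
      simp [word, hβ]
  simp only [h1]
  rw [← Finset.sum_filter, Finset.sum_const, smul_eq_mul]
  simp [word, hammingDist]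

end word

theorem hammingDist_comp {ι κ : Type*} [Fintype ι] [Fintype κ] (e : κ ≃ ι) (x y : ι → Bool) :
    hammingDist (x ∘ e) (y ∘ e) = hammingDist x y := by
  rw [hammingDist_eq_sum, hammingDist_eq_sum]
  exact Equiv.sum_comp e (fun i => if x i ≠ y i then 1 else 0)

/-- `2 ^ (M k)` words of the same weight `M k a b ^ (q - 1) + r` with large mutual distances. -/
theorem leaves {M k a b r s n : ℕ} (hM : 1 ≤ M) (ha : 0 < a) (hab : a < b)
    (hn : n = M * k * b ^ (4 ^ M) + (r + s)) :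
    ∃ L : Finset (Fin n → Bool),
      (∀ x ∈ L, hammingDist (fun _ => false) x = M * k * (a * b ^ (4 ^ M - 1)) + r) ∧
      (∀ x ∈ L, ∀ y ∈ L, x ≠ y →
        (M - 1) * k * (2 * (a * (b - a) * b ^ (4 ^ M - 2))) < hammingDist x y) ∧
      2 ^ (M * k) ≤ #L := by
  classical
  obtain ⟨S, hS, hc⟩ := outer M k hM
  have hcard : Fintype.card ((Fin (M * k) × (Fin (4 ^ M) → Fin b)) ⊕ (Fin r ⊕ Fin s)) = n := by
    simp [hn]
  let e : Fin n ≃ ((Fin (M * k) × (Fin (4 ^ M) → Fin b)) ⊕ (Fin r ⊕ Fin s)) :=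
    (Fintype.equivFinOfCardEq hcard).symm
  let W : (Fin (M * k) → Fin (4 ^ M)) → (Fin n → Bool) := fun c => word (b := b) a r s c ∘ e
  have hpos : 0 < 2 * (a * (b - a) * b ^ (4 ^ M - 2)) := by
    have h1 : 0 < b - a := by omega
    have h2 : 0 < b := by omega
    positivity
  have hW : ∀ c c', hammingDist (W c) (W c') =
      hammingDist c c' * (2 * (a * (b - a) * b ^ (4 ^ M - 2))) := by
    intro c c'
    rw [hammingDist_comp, word_dist hab.le]
  have hinj : Function.Injective W := by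
    intro c c' h
    have h1 := hW c c'
    rw [h, hammingDist_self] at h1
    have h2 : hammingDist c c' = 0 := by
      rcases Nat.eq_zero_or_pos (hammingDist c c') with h | h
      · exact h
      · have := Nat.mul_pos h hpos
        omega
    exact hammingDist_eq_zero.1 h2
  refine ⟨S.image W, ?_, ?_, ?_⟩
  · intro x hx
    obtain ⟨c, _, rfl⟩ := Finset.mem_image.1 hx
    have : (fun _ : Fin n => false) = (fun _ => false) ∘ e := rfl
    rw [this, hammingDist_comp, word_weight hab.le]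
  · intro x hx y hy hxy
    obtain ⟨c, hc, rfl⟩ := Finset.mem_image.1 hx
    obtain ⟨c', hc', rfl⟩ := Finset.mem_image.1 hy
    rw [hW]
    exact Nat.mul_lt_mul_of_pos_right (hS c hc c' hc' fun h => hxy (by rw [h])) hpos
  · rw [Finset.card_image_of_injective _ hinj]
    exact hc

set_option maxHeartbeats 1000000 in
/-- Constant weight codes of exponential size: for `0 < δ < 1 / 2` there are exponentially many
binary words of weight `⌊δ n⌋` whose mutual distances are larger than `⌊δ n⌋`. -/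
theorem exists_leaves {δ : ℝ} (h0 : 0 < δ) (h1 : δ < 1 / 2) :
    ∃ κ : ℝ, 0 < κ ∧ ∃ N : ℕ, ∀ n : ℕ, N ≤ n → ∃ L : Finset (Fin n → Bool),
      (∀ x ∈ L, hammingDist (fun _ => false) x = ⌊δ * n⌋₊) ∧
      (∀ x ∈ L, ∀ y ∈ L, x ≠ y → ⌊δ * n⌋₊ < hammingDist x y) ∧
      (2 : ℝ) ^ (κ * n) ≤ #L := by
  -- the density `p = a / b` of the inner code
  have hδ1 : (0 : ℝ) < 1 - δ := by linarith
  have hlt : δ / (2 * (1 - δ)) < δ := by
    rw [div_lt_iff₀ (by positivity)]
    nlinarith
  obtain ⟨p, hp1, hp2⟩ := exists_rat_btwn hlt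
  have hppos : (0 : ℝ) < p := lt_of_le_of_lt (by positivity) hp1
  have hp0 : 0 < p := by exact_mod_cast hppos
  have hpone : (p : ℝ) < 1 := by linarith
  set a : ℕ := p.num.toNat with hadef
  set b : ℕ := p.den with hbdef
  have hbpos : 0 < b := p.den_pos
  have hanum : (a : ℤ) = p.num := Int.toNat_of_nonneg (Rat.num_nonneg.2 hp0.le)
  have hpab : (p : ℝ) = a / b := by
    have : (p : ℝ) = (p.num : ℝ) / (p.den : ℝ) := by exact_mod_cast (Rat.num_div_den p).symm
    rw [this, ← hanum]
    push_cast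
    rfl
  have hb' : (0 : ℝ) < b := by exact_mod_cast hbpos
  have ha : 0 < a := by
    have : (0 : ℝ) < a := by
      by_contra hcon
      have : (a : ℝ) = 0 := le_antisymm (not_lt.1 hcon) (by positivity)
      rw [hpab, this] at hppos
      simp at hppos
    exact_mod_cast this
  have hab : a < b := by
    have : (a : ℝ) < b := by
      rw [hpab, div_lt_one hb'] at hpone
      exact hpone
    exact_mod_cast this
  -- the number `M`
  have hgap : δ < 2 * p * (1 - δ) := by
    rw [div_lt_iff₀ (by positivity)] at hp1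
    linarith
  obtain ⟨M, hM⟩ := exists_nat_gt (2 * p * (1 - δ) / (2 * p * (1 - δ) - δ) : ℝ)
  have hgap' : 0 < 2 * p * (1 - δ) - δ := by linarith
  have hMpos : (0 : ℝ) < M := lt_trans (by positivity) hM
  have hM1 : 1 ≤ M := by
    have : 0 < M := by exact_mod_cast hMpos
    omega
  have hgapM : δ * M < (M - 1) * (2 * p * (1 - δ)) := by
    rw [div_lt_iff₀ hgap'] at hM
    linarith
  set q : ℕ := 4 ^ M with hq
  have hq2 : 2 ≤ q := by
    calc 2 ≤ 4 ^ 1 := by norm_num
      _ ≤ 4 ^ M := Nat.pow_le_pow_right (by norm_num) hM1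
  set Lr : ℝ := (b : ℝ) ^ q with hLr
  have hLpos : 0 < Lr := by positivity
  have hD1 : ((a * b ^ (q - 1) : ℕ) : ℝ) = p * Lr := by
    rw [hpab, hLr]
    obtain ⟨q', hq'⟩ : ∃ q', q = q' + 1 := ⟨q - 1, by omega⟩
    rw [hq', Nat.add_sub_cancel, pow_succ]
    push_cast
    field_simp
  have hD2 : ((2 * (a * (b - a) * b ^ (q - 2)) : ℕ) : ℝ) = 2 * p * (1 - p) * Lr := by
    rw [hpab, hLr]
    obtain ⟨q', hq'⟩ : ∃ q', q = q' + 2 := ⟨q - 2, by omega⟩
    rw [hq', Nat.add_sub_cancel, pow_add]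
    push_cast [Nat.cast_sub hab.le]
    field_simp
  have hLn : ((b ^ q : ℕ) : ℝ) = Lr := by rw [hLr]; push_cast; rfl
  clear_value a b q Lr
  have h1p : (0 : ℝ) < 1 - p := by linarith
  set θ : ℝ := (1 - δ) / (1 - p) with hθ
  have hθpos : 0 < θ := by positivity
  have hθ1 : θ < 1 := by
    rw [hθ, div_lt_one h1p]
    linarith
  have hθe : θ * (1 - p) = 1 - δ := by
    rw [hθ]; field_simp
  clear_value θ
  have hgap2 : 0 < δ - p * θ := by
    have := mul_lt_mul_of_pos_left hθ1 hppos
    linarith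
  have hgap3 : 0 < (M - 1) * (2 * p * (1 - δ)) - δ * M := by linarith
  obtain ⟨N₁, hN₁⟩ := exists_nat_gt (1 / (δ - p * θ))
  obtain ⟨N₂, hN₂⟩ := exists_nat_gt ((M - 1) * M * (2 * p * (1 - p) * Lr) /
    ((M - 1) * (2 * p * (1 - δ)) - δ * M))
  obtain ⟨N₃, hN₃⟩ := exists_nat_gt (2 * Lr * M / θ)
  refine ⟨θ / (2 * Lr), by positivity, max N₁ (max N₂ N₃), fun n hn => ?_⟩
  have hn1 : (N₁ : ℝ) ≤ n := by exact_mod_cast le_trans (le_max_left _ _) hn
  have hn2 : (N₂ : ℝ) ≤ n := by
    exact_mod_cast le_trans (le_trans (le_max_left _ _) (le_max_right _ _)) hn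
  have hn3 : (N₃ : ℝ) ≤ n := by
    exact_mod_cast le_trans (le_trans (le_max_right _ _) (le_max_right _ _)) hn
  have hn0 : (0 : ℝ) ≤ n := by positivity
  set k : ℕ := ⌊θ * n / (M * Lr)⌋₊ with hk
  have hk1 : (k : ℝ) ≤ θ * n / (M * Lr) := Nat.floor_le (by positivity)
  have hk2 : θ * n / (M * Lr) < k + 1 := Nat.lt_floor_add_one _
  rw [le_div_iff₀ (by positivity)] at hk1
  rw [div_lt_iff₀ (by positivity)] at hk2
  set d : ℕ := ⌊δ * n⌋₊ with hd
  have hd1 : (d : ℝ) ≤ δ * n := Nat.floor_le (by positivity)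
  have hd2 : δ * n < d + 1 := Nat.lt_floor_add_one _
  -- (i)
  have i1 : M * k * (a * b ^ (q - 1)) ≤ d := by
    have : ((M * k * (a * b ^ (q - 1)) : ℕ) : ℝ) ≤ d := by
      rw [Nat.cast_mul, hD1]
      push_cast
      have h3 : 1 < (δ - p * θ) * n := by
        rw [div_lt_iff₀ hgap2] at hN₁
        have := mul_le_mul_of_nonneg_left hn1 hgap2.le
        linarith
      have h4 : (M : ℝ) * k * (p * Lr) ≤ p * (θ * n) := by
        have := mul_le_mul_of_nonneg_left hk1 hppos.le
        linarith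
      linarith
    exact_mod_cast this
  -- (ii)
  have i2 : M * k * b ^ q + (d - M * k * (a * b ^ (q - 1))) ≤ n := by
    have : ((M * k * b ^ q + (d - M * k * (a * b ^ (q - 1))) : ℕ) : ℝ) ≤ n := by
      rw [Nat.cast_add, Nat.cast_sub i1, Nat.cast_mul, Nat.cast_mul _ (a * b ^ (q - 1)), hD1, hLn]
      push_cast
      have h4 : (1 - p) * ((k : ℝ) * (M * Lr)) ≤ (1 - p) * (θ * n) :=
        mul_le_mul_of_nonneg_left hk1 h1p.le
      have h5 : (1 - p) * (θ * n) = (1 - δ) * n := by rw [← hθe]; ring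
      linarith
    exact_mod_cast this
  -- (iii)
  have i3 : d ≤ (M - 1) * k * (2 * (a * (b - a) * b ^ (q - 2))) := by
    have : (d : ℝ) ≤ (((M - 1) * k * (2 * (a * (b - a) * b ^ (q - 2))) : ℕ) : ℝ) := by
      rw [Nat.cast_mul, hD2]
      push_cast [Nat.cast_sub hM1]
      rw [div_lt_iff₀ hgap3] at hN₂
      have hM1' : (0 : ℝ) ≤ M - 1 := by
        have : (1 : ℝ) ≤ M := by exact_mod_cast hM1
        linarith
      -- multiply by `M`
      have h6 : (M : ℝ) * (δ * n) ≤
          (M : ℝ) * ((M - 1) * k * (2 * p * (1 - p) * Lr)) := by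
        have h7 : (M - 1) * (2 * p * (1 - p)) * (θ * n) ≤
            (M - 1) * (2 * p * (1 - p)) * ((k + 1) * (M * Lr)) :=
          mul_le_mul_of_nonneg_left hk2.le (by positivity)
        have h8 : (M - 1) * (2 * p * (1 - p)) * (θ * n) = (M - 1) * (2 * p * (1 - δ)) * n := by
          rw [← hθe]; ring
        have h9 : ((M - 1) * (2 * p * (1 - δ)) - δ * M) * n ≥
            (M - 1) * M * (2 * p * (1 - p) * Lr) := by
          have := mul_le_mul_of_nonneg_left hn2 hgap3.le
          linarith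
        linarith
      have h10 : δ * n ≤ (M - 1) * k * (2 * p * (1 - p) * Lr) := le_of_mul_le_mul_left h6 hMpos
      linarith
    exact_mod_cast this
  obtain ⟨L, hL1, hL2, hL3⟩ := leaves (M := M) (k := k) (a := a) (b := b)
    (r := d - M * k * (a * b ^ (q - 1)))
    (s := n - (M * k * b ^ q + (d - M * k * (a * b ^ (q - 1))))) (n := n) hM1 ha hab (by
      rw [← hq]
      omega)
  refine ⟨L, fun x hx => ?_, fun x hx y hy hxy => ?_, ?_⟩
  · rw [hL1 x hx, ← hq]
    omega
  · have := hL2 x hx y hy hxy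
    rw [← hq] at this
    exact lt_of_le_of_lt i3 this
  · have h11 : θ / (2 * Lr) * n ≤ ((M * k : ℕ) : ℝ) := by
      push_cast
      rw [div_mul_eq_mul_div, div_le_iff₀ (by positivity)]
      rw [div_lt_iff₀ hθpos] at hN₃
      have := mul_le_mul_of_nonneg_left hn3 hθpos.le
      linarith
    calc (2 : ℝ) ^ (θ / (2 * Lr) * n) ≤ (2 : ℝ) ^ (((M * k : ℕ) : ℝ)) :=
          Real.rpow_le_rpow_of_exponent_le (by norm_num) h11
      _ = ((2 ^ (M * k) : ℕ) : ℝ) := by
          rw [Real.rpow_natCast]; push_cast; rfl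
      _ ≤ #L := by exact_mod_cast hL3

end Pool.Agent.R475.SB
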