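import Mathlib

/-!
# Spectral facts for stars
-/

set_option autoImplicit false

open Finset

namespace Pool.Agent.R475.SB

variable {V : Type*} [Fintype V] [DecidableEq V]

theorem trace_pow {A : Matrix V V ℝ} (hA : A.IsHermitian) (k : ℕ) :
    (A ^ k).trace = ∑ i, hA.eigenvalues i ^ k := by
  have h := hA.spectral_theorem
  have h2 : A ^ k = Unitary.conjStarAlgAut ℝ _ hA.eigenvectorUnitary
      ((Matrix.diagonal (RCLike.ofReal ∘ hA.eigenvalues : V → ℝ)) ^ k) := by
    rw [map_pow]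
    exact congrArg (fun X => X ^ k) h
  rw [h2, Unitary.conjStarAlgAut_apply, Matrix.trace_mul_comm, ← mul_assoc,
    Unitary.coe_star_mul_self, one_mul, Matrix.diagonal_pow, Matrix.trace_diagonal]
  simp

theorem adj_isHermitian (G : SimpleGraph V) [DecidableRel G.Adj] :
    (G.adjMatrix ℝ).IsHermitian := by
  unfold Matrix.IsHermitian
  rw [Matrix.conjTranspose_eq_transpose_of_trivial]
  exact G.isSymm_adjMatrix

theorem sum_sq (G : SimpleGraph V) [DecidableRel G.Adj] :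
    ∑ i, (adj_isHermitian G).eigenvalues i ^ 2 = ∑ v, (G.degree v : ℝ) := by
  rw [← trace_pow, Matrix.trace, sq]
  refine Finset.sum_congr rfl fun v _ => ?_
  rw [Matrix.diag_apply, SimpleGraph.adjMatrix_mul_self_apply_self]

theorem sum_four (G : SimpleGraph V) [DecidableRel G.Adj] (v : V) :
    (G.degree v : ℝ) ^ 2 ≤ ∑ i, (adj_isHermitian G).eigenvalues i ^ 4 := by
  have hs : ((G.adjMatrix ℝ) ^ 2).IsHermitian := (adj_isHermitian G).pow 2
  have hsym : ∀ i j, ((G.adjMatrix ℝ) ^ 2) i j = ((G.adjMatrix ℝ) ^ 2) j i := by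
    intro i j
    have := hs.apply i j
    simpa using this.symm
  rw [← trace_pow, Matrix.trace]
  have h4 : (G.adjMatrix ℝ) ^ 4 = (G.adjMatrix ℝ) ^ 2 * (G.adjMatrix ℝ) ^ 2 := by
    rw [← pow_add]
  have hd : ∀ i, ((G.adjMatrix ℝ) ^ 4).diag i = ∑ j, (((G.adjMatrix ℝ) ^ 2) i j) ^ 2 := by
    intro i
    rw [Matrix.diag_apply, h4, Matrix.mul_apply]
    refine Finset.sum_congr rfl fun j _ => ?_
    rw [hsym j i]
    exact (sq _).symm
  have hv : (G.degree v : ℝ) ^ 2 ≤ ((G.adjMatrix ℝ) ^ 4).diag v := by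
    rw [hd]
    have : (((G.adjMatrix ℝ) ^ 2) v v) ^ 2 ≤ ∑ j, (((G.adjMatrix ℝ) ^ 2) v j) ^ 2 :=
      Finset.single_le_sum (f := fun j => (((G.adjMatrix ℝ) ^ 2) v j) ^ 2)
        (fun _ _ => sq_nonneg _) (Finset.mem_univ v)
    have hvv : ((G.adjMatrix ℝ) ^ 2) v v = G.degree v := by
      rw [sq, SimpleGraph.adjMatrix_mul_self_apply_self]
    rw [hvv] at this
    exact this
  refine hv.trans ?_
  exact Finset.single_le_sum (f := fun i => ((G.adjMatrix ℝ) ^ 4).diag i)
    (fun i _ => by rw [hd]; exact Finset.sum_nonneg fun _ _ => sq_nonneg _) (Finset.mem_univ v)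

/-- `G` is the star with centre `v₀`. -/
def IsStar (G : SimpleGraph V) (v₀ : V) : Prop :=
  ∀ x y, G.Adj x y ↔ x ≠ y ∧ (x = v₀ ∨ y = v₀)

variable {G : SimpleGraph V} {v₀ : V}

theorem IsStar.edgesIn (h : IsStar G v₀) (X : Finset V) :
    {e ∈ G.edgeSet | ∀ v ∈ e, v ∈ X} =
      if v₀ ∈ X then ((X.erase v₀).image fun v => s(v₀, v) : Finset (Sym2 V)) else ∅ := by
  ext e
  induction e using Sym2.ind with
  | _ x y =>
    simp only [Set.mem_ofPred_eq, SimpleGraph.mem_edgeSet, h x y, Sym2.mem_iff]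
    split_ifs with hX
    · simp only [Finset.coe_image, Finset.coe_erase, Set.mem_image, Set.mem_sdiff,
        Finset.mem_coe, Set.mem_singleton_iff, Sym2.eq_iff]
      constructor
      · rintro ⟨⟨hne, h1⟩, h2⟩
        rcases h1 with rfl | rfl
        · exact ⟨y, ⟨h2 y (Or.inr rfl), fun hc => hne hc.symm⟩, Or.inl ⟨rfl, rfl⟩⟩
        · exact ⟨x, ⟨h2 x (Or.inl rfl), hne⟩, Or.inr ⟨rfl, rfl⟩⟩
      · rintro ⟨z, ⟨hz, hz0⟩, (⟨rfl, rfl⟩ | ⟨rfl, rfl⟩)⟩
        · refine ⟨⟨fun hc => hz0 hc.symm, Or.inl rfl⟩, ?_⟩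
          rintro w (rfl | rfl)
          · exact hX
          · exact hz
        · refine ⟨⟨hz0, Or.inr rfl⟩, ?_⟩
          rintro w (rfl | rfl)
          · exact hz
          · exact hX
    · simp only [Finset.coe_empty, Set.mem_empty_iff_false, iff_false]
      rintro ⟨⟨_, h1⟩, h2⟩
      rcases h1 with rfl | rfl
      · exact hX (h2 x (Or.inl rfl))
      · exact hX (h2 y (Or.inr rfl))

theorem IsStar.edgesIn_le (h : IsStar G v₀) (X : Finset V) (hX : X.Nonempty) :
    {e ∈ G.edgeSet | ∀ v ∈ e, v ∈ X}.ncard + 1 ≤ X.card := by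
  rw [h.edgesIn]
  split_ifs with h0
  · rw [Set.ncard_coe_finset]
    have h1 := Finset.card_image_le (s := X.erase v₀) (f := fun v => s(v₀, v))
    have h2 := Finset.card_erase_of_mem h0
    have h3 := hX.card_pos
    omega
  · rw [Finset.coe_empty, Set.ncard_empty]
    have := hX.card_pos
    omega

theorem IsStar.edge_card (h : IsStar G v₀) :
    G.edgeSet.ncard + 1 = Fintype.card V := by
  have h1 := h.edgesIn Finset.univ
  have h2 : {e ∈ G.edgeSet | ∀ v ∈ e, v ∈ (Finset.univ : Finset V)} = G.edgeSet := by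
    ext e; simp
  rw [h2, if_pos (Finset.mem_univ _)] at h1
  rw [h1, Set.ncard_coe_finset, Finset.card_image_of_injOn, Finset.card_erase_of_mem
    (Finset.mem_univ _), Finset.card_univ]
  · have : 0 < Fintype.card V := Fintype.card_pos_iff.2 ⟨v₀⟩
    omega
  · intro x hx y hy hxy
    simp only [Finset.coe_erase, Finset.coe_univ, Set.mem_sdiff, Set.mem_univ, true_and,
      Set.mem_singleton_iff] at hx hy
    simp only [Sym2.eq_iff] at hxy
    rcases hxy with ⟨_, h⟩ | ⟨h, _⟩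
    · exact h
    · exact absurd h.symm hy

theorem IsStar.degree (h : IsStar G v₀) [DecidableRel G.Adj] :
    G.degree v₀ + 1 = Fintype.card V := by
  have h1 : G.neighborFinset v₀ = Finset.univ.erase v₀ := by
    ext x
    simp only [SimpleGraph.mem_neighborFinset, h v₀ x, Finset.mem_erase, Finset.mem_univ,
      and_true, true_or]
    exact ⟨fun h h' => h h'.symm, fun h h' => h h'.symm⟩
  rw [← SimpleGraph.card_neighborFinset_eq_degree, h1, Finset.card_erase_of_mem
    (Finset.mem_univ _), Finset.card_univ]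
  have : 0 < Fintype.card V := Fintype.card_pos_iff.2 ⟨v₀⟩
  omega

theorem IsStar.sum_degree (h : IsStar G v₀) [DecidableRel G.Adj] :
    ∑ v, G.degree v + 2 = 2 * Fintype.card V := by
  have h1 := G.sum_degrees_eq_twice_card_edges
  have h2 := h.edge_card
  have h3 : G.edgeSet.ncard = #G.edgeFinset := by
    rw [← SimpleGraph.coe_edgeFinset, Set.ncard_coe_finset]
  omega

/-- The ratio of the two norms for a star on `m + 1` vertices. -/
theorem IsStar.ratio (h : IsStar G v₀) [DecidableRel G.Adj] {m : ℕ} (hm : 1 ≤ m)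
    (hc : Fintype.card V = m + 1) {x : ℝ} (hx : 0 ≤ x) (hxm : x ^ 4 ≤ (m + 1) / 4) :
    x ≤ ((∑ v, |(adj_isHermitian G).eigenvalues v| ^ 4) / (Fintype.card V : ℝ)) ^ (1 / (4 : ℝ)) /
      ((∑ v, |(adj_isHermitian G).eigenvalues v| ^ 2) / (Fintype.card V : ℝ)) ^ (1 / (2 : ℝ)) := by
  have h4 := sum_four G v₀
  have h2 := sum_sq G
  have hdeg : (G.degree v₀ : ℝ) = m := by
    have := h.degree
    have : G.degree v₀ = m := by omega
    exact_mod_cast this
  have hsum : ∑ v, (G.degree v : ℝ) = 2 * m := by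
    have := h.sum_degree
    have : ∑ v, G.degree v = 2 * m := by omega
    exact_mod_cast this
  have e4 : ∑ v, |(adj_isHermitian G).eigenvalues v| ^ 4
      = ∑ v, (adj_isHermitian G).eigenvalues v ^ 4 := by
    refine Finset.sum_congr rfl fun v _ => ?_
    exact (by decide : Even 4).pow_abs _
  have e2 : ∑ v, |(adj_isHermitian G).eigenvalues v| ^ 2
      = ∑ v, (adj_isHermitian G).eigenvalues v ^ 2 := by
    refine Finset.sum_congr rfl fun v _ => ?_
    exact sq_abs _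
  rw [e4, e2, h2, hsum, hc]
  rw [hdeg] at h4
  have hmpos : (0 : ℝ) < m := by exact_mod_cast hm
  set S := ∑ v, (adj_isHermitian G).eigenvalues v ^ 4 with hS
  push_cast
  have hB : (0 : ℝ) < 2 * m / (m + 1) := by positivity
  rw [le_div_iff₀ (Real.rpow_pos_of_pos hB _)]
  have hL : 0 ≤ x * (2 * (m : ℝ) / (m + 1)) ^ (1 / (2 : ℝ)) := by positivity
  have hS0 : 0 ≤ S / ((m : ℝ) + 1) := by
    have : 0 ≤ S := le_trans (by positivity) h4
    positivity
  rw [show x * (2 * (m : ℝ) / (m + 1)) ^ (1 / (2 : ℝ)) =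
      ((x * (2 * (m : ℝ) / (m + 1)) ^ (1 / (2 : ℝ))) ^ 4) ^ (1 / (4 : ℝ)) by
    rw [← Real.rpow_natCast, ← Real.rpow_mul hL]
    norm_num]
  refine Real.rpow_le_rpow (by positivity) ?_ (by norm_num)
  rw [mul_pow]
  have : ((2 * (m : ℝ) / (m + 1)) ^ (1 / (2 : ℝ))) ^ 4 = (2 * (m : ℝ) / (m + 1)) ^ 2 := by
    rw [← Real.rpow_natCast, ← Real.rpow_mul hB.le, ← Real.rpow_natCast]
    norm_num
  rw [this]
  calc x ^ 4 * (2 * (m : ℝ) / (m + 1)) ^ 2 ≤ ((m : ℝ) + 1) / 4 * (2 * (m : ℝ) / (m + 1)) ^ 2 := by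
        gcongr
    _ = (m : ℝ) ^ 2 / ((m : ℝ) + 1) := by field_simp; ring
    _ ≤ S / ((m : ℝ) + 1) := by gcongr

end Pool.Agent.R475.SB
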